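import Mathlib

set_option autoImplicit false

namespace Pool.Agent.H.MP_aa4be7_al

/-- Degree `k` component of the Laurent polynomial ring in `m` variables. -/
noncomputable def piece (R : Type) [CommRing R] (m : ℕ) (k : ℤ) :
    Submodule R (AddMonoidAlgebra R (Fin m → ℤ)) :=
  Submodule.span R {f | ∃ a : Fin m → ℤ, ∑ i, a i = k ∧ f = AddMonoidAlgebra.single a 1}

/-- Graded subalgebras of the Laurent polynomial ring. -/
def IsGradedSub {R : Type} [CommRing R] {m : ℕ}
    (A : Subalgebra R (AddMonoidAlgebra R (Fin m → ℤ))) : Prop :=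
  A.toSubmodule = ⨆ k : ℤ, A.toSubmodule ⊓ piece R m k

/-- Unimodular rows. -/
def Unimodular {A : Type} [CommRing A] {n : ℕ} (a : Fin n → A) : Prop :=
  ∃ b : Fin n → A, ∑ i, a i * b i = 1

/-- First rows of invertible matrices. -/
def FirstRow {A : Type} [CommRing A] {n : ℕ} (a : Fin (n + 1) → A) : Prop :=
  ∃ g : GL (Fin (n + 1)) A, (g : Matrix (Fin (n + 1)) (Fin (n + 1)) A) 0 = a

end Pool.Agent.H.MP_aa4be7_al
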