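import Mathlib

set_option autoImplicit false

namespace Pool.Agent.H.MP_aa4be7_al

open Real

/-- Spherical coordinates. -/
noncomputable def sph (u : ℝ × ℝ) : Fin 3 → ℝ := ![cos u.2 * cos u.1, cos u.2 * sin u.1, sin u.2]

lemma sph_cont : Continuous sph := by
  refine continuous_pi fun i => ?_
  fin_cases i <;> simp [sph] <;> fun_prop

lemma const_of_exp {k : ℝ → ℂ} (hk : Continuous k) (c : ℂ) (h : ∀ t, Complex.exp (k t) = c)
    (a b : ℝ) : k a = k b :=
  Complex.isCoveringMap_exp.const_of_comp hk (fun s t => Subtype.ext ((h s).trans (h t).symm)) a b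

theorem hairy (v : (Fin 3 → ℝ) → Fin 3 → ℝ) (hv : Continuous v) :
    ∃ u : ℝ × ℝ, ∃ c : ℝ, v (sph u) = c • sph u := by
  by_contra hne
  let G : ℝ × ℝ → ℂ := fun u =>
    ((-sin u.1 * v (sph u) 0 + cos u.1 * v (sph u) 1 : ℝ) : ℂ) +
      ((-(sin u.2 * cos u.1) * v (sph u) 0 - sin u.2 * sin u.1 * v (sph u) 1 +
        cos u.2 * v (sph u) 2 : ℝ) : ℂ) * Complex.I
  have hvs : Continuous fun u => v (sph u) := hv.comp sph_cont
  have hG : Continuous G := by
    have := sph_cont
    unfold G; fun_prop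
  have h0 : ∀ u, G u ≠ 0 := fun u e => by
    have e1 := congrArg Complex.re e
    have e2 := congrArg Complex.im e
    simp only [G, Complex.add_re, Complex.add_im, Complex.mul_re, Complex.mul_im, Complex.ofReal_re,
      Complex.ofReal_im, Complex.I_re, Complex.I_im, Complex.zero_re, Complex.zero_im] at e1 e2
    have s1 := sin_sq_add_cos_sq u.1
    have s2 := sin_sq_add_cos_sq u.2
    refine hne ⟨u, cos u.2 * cos u.1 * v (sph u) 0 + cos u.2 * sin u.1 * v (sph u) 1 +
      sin u.2 * v (sph u) 2, funext fun i => ?_⟩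
    generalize v (sph u) = w at *
    fin_cases i <;> simp [sph]
    · linear_combination (-sin u.1) * e1 - sin u.2 * cos u.1 * e2 - w 0 * s1 -
        (cos u.1 ^ 2 * w 0 + cos u.1 * sin u.1 * w 1) * s2
    · linear_combination (cos u.1) * e1 - sin u.2 * sin u.1 * e2 - w 1 * s1 -
        (sin u.1 ^ 2 * w 1 + cos u.1 * sin u.1 * w 0) * s2
    · linear_combination (cos u.2) * e2 - w 2 * s2
  obtain ⟨z0, hz0⟩ : ∃ z, Complex.exp z = G 0 := ⟨_, Complex.exp_log (h0 0)⟩
  obtain ⟨Λ, ⟨-, hΛ⟩, -⟩ := Complex.isCoveringMap_exp.existsUnique_continuousMap_lifts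
    (⟨fun u => ⟨G u, h0 u⟩, hG.subtype_mk _⟩ : C(ℝ × ℝ, {z : ℂ // z ≠ 0})) 0 z0 (Subtype.ext hz0)
  have hL : ∀ u, Complex.exp (Λ u) = G u := fun u => congrArg Subtype.val (congrFun hΛ u)
  have k1 := const_of_exp (k := fun t => Λ (2 * π, t) - Λ (0, t)) (by fun_prop) 1 (fun t => by
    rw [Complex.exp_sub, hL, hL, div_eq_one_iff_eq (h0 _)]
    simp [G, sph]) (π / 2) (-(π / 2))
  have k2 := const_of_exp (k := fun t => Λ (t, π / 2) + t * Complex.I) (by fun_prop)
    (-Complex.I * (v ![0, 0, 1] 0 + v ![0, 0, 1] 1 * Complex.I)) (fun t => by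
      rw [Complex.exp_add, hL, Complex.exp_mul_I, ← Complex.ofReal_cos, ← Complex.ofReal_sin]
      have s1 := sin_sq_add_cos_sq t
      apply Complex.ext <;> simp [G, sph, -Complex.ofReal_cos, -Complex.ofReal_sin]
      · linear_combination v ![0, 0, 1] 1 * s1
      · linear_combination -v ![0, 0, 1] 0 * s1) (2 * π) 0
  have k3 := const_of_exp (k := fun t => Λ (t, -(π / 2)) + (-t : ℝ) * Complex.I) (by fun_prop)
    (Complex.I * (v ![0, 0, -1] 0 - v ![0, 0, -1] 1 * Complex.I)) (fun t => by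
      rw [Complex.exp_add, hL, Complex.exp_mul_I, ← Complex.ofReal_cos, ← Complex.ofReal_sin]
      have s1 := sin_sq_add_cos_sq t
      apply Complex.ext <;> simp [G, sph, -Complex.ofReal_cos, -Complex.ofReal_sin]
      · linear_combination v ![0, 0, -1] 1 * s1
      · linear_combination v ![0, 0, -1] 0 * s1) (2 * π) 0
  have : (4 * π * Complex.I : ℂ) = 0 := by
    push_cast at k1 k2 k3
    linear_combination k2 - k3 - k1
  simp [pi_ne_zero] at this

lemma dense_U : Dense {u : ℝ × ℝ | ∀ i, sph u i ≠ 0} := by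
  have h : Dense {t : ℝ | sin (2 * t) = 0}ᶜ := by
    refine Set.Countable.dense_compl ℝ ((Set.countable_range fun n : ℤ => n * π / 2).mono ?_)
    intro t ht
    obtain ⟨n, hn⟩ := sin_eq_zero_iff.1 ht
    exact ⟨n, by simp only; linarith⟩
  refine (h.prod h).mono ?_
  rintro ⟨a, b⟩ ⟨ha, hb⟩ i
  simp only [Set.mem_compl_iff, Set.mem_setOf_eq, sin_two_mul, mul_eq_zero, not_or] at ha hb
  fin_cases i <;> simp [sph, ha, hb]

end Pool.Agent.H.MP_aa4be7_al
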