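import Mathlib
import Pool.Agent.H.MP_aa4be7_al.Hairy

set_option autoImplicit false

namespace Pool.Agent.H.MP_aa4be7_al

open Real AddMonoidAlgebra

abbrev L := AddMonoidAlgebra ℝ (Fin 5 → ℤ)

noncomputable def mon (a : Fin 5 → ℤ) : L := single a 1

noncomputable def xs : Fin 3 → L := ![mon ![1, 0, 0, 0, 0], mon ![0, 1, 0, 0, 0], mon ![0, 0, 1, 0, 0]]

noncomputable def ys : Fin 3 → L :=
  ![mon ![-1, 0, 0, 0, 0] - mon ![-1, 1, 0, -1, 0] - mon ![-1, 0, 1, 0, -1],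
    mon ![0, 0, 0, -1, 0], mon ![0, 0, 0, 0, -1]]

noncomputable def A : Subalgebra ℝ L := Algebra.adjoin ℝ (Set.range xs ∪ Set.range ys)

noncomputable def comp (k : ℤ) : Submodule ℝ L :=
  Submodule.span ℝ {f | ∃ a : Fin 5 → ℤ, ∑ i, a i = k ∧ f = single a 1}

lemma mon_mul (a b : Fin 5 → ℤ) : mon a * mon b = mon (a + b) := by
  simp [mon, single_mul_single]

lemma mon_mem (a : Fin 5 → ℤ) {k : ℤ} (h : ∑ i, a i = k) : mon a ∈ comp k :=
  Submodule.subset_span ⟨a, h, rfl⟩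

lemma comp_mul {k l : ℤ} {f g : L} (hf : f ∈ comp k) (hg : g ∈ comp l) : f * g ∈ comp (k + l) := by
  have := Submodule.mul_mem_mul hf hg
  rw [comp, comp, Submodule.span_mul_span] at this
  refine Submodule.span_mono ?_ this
  rintro _ ⟨_, ⟨a, rfl, rfl⟩, _, ⟨b, rfl, rfl⟩, rfl⟩
  exact ⟨a + b, by simp [Finset.sum_add_distrib], mon_mul a b⟩

lemma graded : A.toSubmodule = ⨆ k : ℤ, A.toSubmodule ⊓ comp k := by
  refine le_antisymm ?_ (iSup_le fun _ => inf_le_left)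
  rw [A, Algebra.adjoin_eq_span, Submodule.span_le, ← Algebra.adjoin_eq_span]
  intro f hf
  have h : ∃ k, f ∈ comp k := by
    induction hf using Submonoid.closure_induction with
    | mem x hx =>
      rcases hx with ⟨i, rfl⟩ | ⟨i, rfl⟩
      · refine ⟨1, ?_⟩
        fin_cases i <;> exact mon_mem _ (by decide)
      · refine ⟨-1, ?_⟩
        fin_cases i
        · exact sub_mem (sub_mem (mon_mem _ (by decide)) (mon_mem _ (by decide))) (mon_mem _ (by decide))
        · exact mon_mem _ (by decide)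
        · exact mon_mem _ (by decide)
    | one => exact ⟨0, mon_mem 0 (by decide)⟩
    | mul x y _ _ hx hy => exact ⟨_, comp_mul hx.choose_spec hy.choose_spec⟩
  obtain ⟨k, hk⟩ := h
  exact Submodule.mem_iSup_of_mem k ⟨Submonoid.closure_le.2 (fun _ h => Algebra.subset_adjoin h :
    _ ⊆ ((Algebra.adjoin ℝ (Set.range xs ∪ Set.range ys)).toSubsemiring.toSubmonoid : Set L)) hf, hk⟩

lemma unimod : ∑ i, xs i * ys i = 1 := by
  have e : ∀ {a b c : Fin 5 → ℤ}, a + b = c → mon a * mon b = mon c := fun h => h ▸ mon_mul _ _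
  simp only [Fin.sum_univ_three, xs, ys, Matrix.cons_val_zero, Matrix.cons_val_one, Matrix.cons_val,
    mul_sub]
  rw [e (c := 0) (by decide), e (c := ![0, 1, 0, -1, 0]) (by decide),
    e (c := ![0, 0, 1, 0, -1]) (by decide), e (c := ![0, 1, 0, -1, 0]) (by decide),
    e (c := ![0, 0, 1, 0, -1]) (by decide)]
  rw [show mon 0 = 1 from rfl]; ring

noncomputable def ev (p : Fin 3 → ℝ) (hp : ∀ i, p i ≠ 0) : L →ₐ[ℝ] ℝ :=
  AddMonoidAlgebra.lift ℝ ℝ (Fin 5 → ℤ)
    { toFun := fun a => p 0 ^ a.toAdd 0 * p 1 ^ (a.toAdd 1 - a.toAdd 3) * p 2 ^ (a.toAdd 2 - a.toAdd 4)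
      map_one' := by simp
      map_mul' := fun a b => by
        simp only [toAdd_mul, Pi.add_apply, add_sub_add_comm, zpow_add₀ (hp _)]; ring }

lemma ev_mon (p : Fin 3 → ℝ) (hp : ∀ i, p i ≠ 0) (a : Fin 5 → ℤ) :
    ev p hp (mon a) = p 0 ^ a 0 * p 1 ^ (a 1 - a 3) * p 2 ^ (a 2 - a 4) := by
  simp [ev, mon]

lemma ev_xs (p : Fin 3 → ℝ) (hp : ∀ i, p i ≠ 0) (i : Fin 3) : ev p hp (xs i) = p i := by
  fin_cases i <;> simp [xs, ev_mon]

lemma ev_ys (u : ℝ × ℝ) (hp : ∀ i, sph u i ≠ 0) (i : Fin 3) : ev (sph u) hp (ys i) = sph u i := by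
  have h : sph u 0 ^ 2 + sph u 1 ^ 2 + sph u 2 ^ 2 = 1 := by
    simp [sph]
    linear_combination cos u.2 ^ 2 * sin_sq_add_cos_sq u.1 + sin_sq_add_cos_sq u.2
  have := hp 0
  fin_cases i <;> simp [ys, ev_mon]
  field_simp
  linear_combination -h

lemma ext_cont (f : A) : ∃ g : (Fin 3 → ℝ) → ℝ, Continuous g ∧
    ∀ (u : ℝ × ℝ) (hp : ∀ i, sph u i ≠ 0), ev (sph u) hp f = g (sph u) := by
  obtain ⟨f, hf⟩ := f
  induction hf using Algebra.adjoin_induction with
  | mem x hx =>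
    rcases hx with ⟨i, rfl⟩ | ⟨i, rfl⟩
    · exact ⟨fun p => p i, by fun_prop, fun u hp => ev_xs _ _ _⟩
    · exact ⟨fun p => p i, by fun_prop, fun u hp => ev_ys _ _ _⟩
  | algebraMap r => exact ⟨fun _ => r, by fun_prop, fun u hp => AlgHom.commutes _ r⟩
  | add x y _ _ hx hy =>
    obtain ⟨g, h1, h2⟩ := hx
    obtain ⟨g', h1', h2'⟩ := hy
    exact ⟨g + g', h1.add h1', fun u hp => by simp [← h2 u hp, ← h2' u hp]⟩
  | mul x y _ _ hx hy =>
    obtain ⟨g, h1, h2⟩ := hx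
    obtain ⟨g', h1', h2'⟩ := hy
    exact ⟨g * g', h1.mul h1', fun u hp => by simp [← h2 u hp, ← h2' u hp]⟩

theorem main : ∃ a : Fin 3 → A, (∃ b : Fin 3 → A, ∑ i, a i * b i = 1) ∧
    ∀ g : GL (Fin 3) A, (g : Matrix (Fin 3) (Fin 3) A) 0 ≠ a := by
  refine ⟨fun i => ⟨xs i, Algebra.subset_adjoin (.inl ⟨i, rfl⟩)⟩,
    ⟨fun i => ⟨ys i, Algebra.subset_adjoin (.inr ⟨i, rfl⟩)⟩, Subtype.ext (by simpa using unimod)⟩,
    fun g hg => ?_⟩
  obtain ⟨d, hd⟩ := ((Matrix.isUnit_iff_isUnit_det _).1 g.isUnit).exists_right_inv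
  choose F hF1 hF2 using ext_cont
  let M : Matrix (Fin 3) (Fin 3) A := g
  have key : (fun u : ℝ × ℝ => Matrix.det (Matrix.of ![sph u, fun j => F (M 1 j) (sph u),
      fun j => F (M 2 j) (sph u)]) * F d (sph u)) = fun _ => 1 := by
    have := sph_cont
    refine Continuous.ext_on dense_U ?_ continuous_const fun u hp => ?_
    · simp only [Matrix.det_fin_three]
      simp
      fun_prop
    · have h := congrArg ((ev (sph u) hp).comp A.val) hd
      rw [map_mul, map_one, AlgHom.map_det] at h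
      beta_reduce
      rw [← h, ← hF2 d u hp]
      refine congrArg₂ (· * ·) (congrArg Matrix.det ?_) rfl
      ext i j
      fin_cases i
      · change sph u j = ev (sph u) hp (M 0 j : A)
        rw [show M 0 j = _ from congrFun hg j]
        exact (ev_xs _ _ _).symm
      · exact (hF2 _ u hp).symm
      · exact (hF2 _ u hp).symm
  obtain ⟨u, c, hu⟩ := hairy (fun p j => F (M 1 j) p) (by fun_prop)
  have := congrFun key u
  simp only [hu, Matrix.det_fin_three] at this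
  simp at this
  ring_nf at this
  simp at this

end Pool.Agent.H.MP_aa4be7_al
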